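import Pool.Agent.MP_8be872_ag.H63.ApiC
import Pool.Agent.MP_8be872_ag.H63.Tool

/-! Renaming the generators of a free supercommutative algebra. -/

namespace Pool.Agent.MP_8be872_ag.H82

open Finset H38 H56 H63 MvPolynomial

section Gen

variable {M M' : Type} [AddCommGroup M] [Module ℂ M] [AddCommGroup M'] [Module ℂ M']

/-- Operators intertwined by `ψ`. -/
def Rl (ψ : M →ₗ[ℂ] M') (A : Module.End ℂ M) (A' : Module.End ℂ M') : Prop :=
  ∀ x, ψ (A x) = A' (ψ x)

/-- Pairs of operators intertwined by `ψ`. -/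
def RlA (ψ : M →ₗ[ℂ] M') : Subalgebra ℂ (Module.End ℂ M × Module.End ℂ M') where
  carrier := {A | Rl ψ A.1 A.2}
  mul_mem' {A B} hA hB x := by
    change ψ (A.1 (B.1 x)) = A.2 (B.2 (ψ x))
    rw [hA, hB]
  add_mem' {A B} hA hB x := by
    change ψ (A.1 x + B.1 x) = A.2 (ψ x) + B.2 (ψ x)
    rw [map_add, hA, hB]
  algebraMap_mem' r x := map_smul ψ r x

variable {ψ : M →ₗ[ℂ] M'} {A B : Module.End ℂ M} {A' B' : Module.End ℂ M'}

theorem Rl.app (h : Rl ψ A A') (x : M) : ψ (A x) = A' (ψ x) := h x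

theorem Rl.mul (h : Rl ψ A A') (h' : Rl ψ B B') : Rl ψ (A * B) (A' * B') :=
  (RlA ψ).mul_mem (x := (A, A')) (y := (B, B')) h h'

theorem Rl.add (h : Rl ψ A A') (h' : Rl ψ B B') : Rl ψ (A + B) (A' + B') :=
  (RlA ψ).add_mem (x := (A, A')) (y := (B, B')) h h'

theorem Rl.sub (h : Rl ψ A A') (h' : Rl ψ B B') : Rl ψ (A - B) (A' - B') :=
  (RlA ψ).sub_mem (x := (A, A')) (y := (B, B')) h h'

theorem Rl.zero : Rl ψ 0 0 := (RlA ψ).zero_mem

theorem Rl.one : Rl ψ 1 1 := (RlA ψ).one_mem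

theorem Rl.ite (c : Prop) [Decidable c] (h : Rl ψ A A') (h' : Rl ψ B B') :
    Rl ψ (if c then A else B) (if c then A' else B') := by
  split_ifs
  exacts [h, h']

theorem Rl.zmul (h : Rl ψ 0 B') (A' : Module.End ℂ M') : Rl ψ 0 (A' * B') := fun x => by
  have k : B' (ψ x) = 0 := (h.app x).symm.trans (map_zero ψ)
  change ψ 0 = A' (B' (ψ x))
  rw [k, map_zero, map_zero]

theorem Rl.sum {I I' : Type} [Fintype I] [Fintype I'] {e : I → I'} (he : Function.Injective e)
    {F : I → Module.End ℂ M} {F' : I' → Module.End ℂ M'} (h : ∀ i, Rl ψ (F i) (F' (e i)))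
    (h0 : ∀ i ∉ Set.range e, Rl ψ 0 (F' i)) : Rl ψ (∑ i, F i) (∑ i, F' i) := fun x => by
  rw [LinearMap.sum_apply, LinearMap.sum_apply, map_sum]
  exact Fintype.sum_of_injective e he _ _
    (fun i hi => ((h0 i hi).app x).symm.trans (map_zero ψ)) fun i => (h i).app x

theorem Rl.sum' {I : Type} [Fintype I] {F : I → Module.End ℂ M} {F' : I → Module.End ℂ M'}
    (h : ∀ i, Rl ψ (F i) (F' i)) : Rl ψ (∑ i, F i) (∑ i, F' i) :=
  Rl.sum Function.injective_id h fun i hi => absurd ⟨i, rfl⟩ hi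

theorem hDim_iso {Z : Bool → Submodule ℂ M} {Z' : Bool → Submodule ℂ M'} {C : Submodule ℂ M}
    {C' : Submodule ℂ M'} (hD : Rl ψ A A') (hZ : ∀ p x, x ∈ Z p ↔ ψ x ∈ Z' p)
    (hs : ∀ p, ∀ y ∈ Z' p, ∃ x, ψ x = y) (hC : ∀ x, x ∈ C ↔ ψ x ∈ C') (p : Bool) :
    hDim A' Z' C' p = hDim A Z C p := by
  rw [TL.hDim_eq, TL.hDim_eq, TL.sq_map ψ (Z p ⊓ C.comap A)]
  · refine TL.sq_congr fun x _ => ?_
    rw [Submodule.mem_comap, TL.mem_bd, TL.mem_bd]
    constructor
    · rintro ⟨y', hy', h⟩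
      obtain ⟨y, rfl⟩ := hs _ y' hy'
      exact ⟨y, (hZ _ y).2 hy', (hC _).2 (by rwa [map_sub, hD.app])⟩
    · rintro ⟨y, hy, h⟩
      exact ⟨ψ y, (hZ _ y).1 hy, by rw [← hD.app, ← map_sub]; exact (hC _).1 h⟩
  · rintro r ⟨h1, h2⟩
    refine ⟨ψ r, ⟨(hZ _ r).1 h1, ?_⟩, by rw [sub_self]; exact zero_mem _⟩
    change A' (ψ r) ∈ C'
    rw [← hD.app]
    exact (hC _).1 h2
  · rintro x ⟨h1, h2⟩
    obtain ⟨r, rfl⟩ := hs _ x h1
    refine ⟨r, ⟨(hZ _ r).2 h1, (hC _).2 ?_⟩, by rw [sub_self]; exact zero_mem _⟩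
    rw [hD.app]
    exact h2

theorem alg_mem {σ R : Type} [Ring R] [Algebra ℂ R] (φ : MvPolynomial σ ℂ →ₐ[ℂ] R)
    (S : Subalgebra ℂ R) (h : ∀ e, φ (X e) ∈ S) (F : MvPolynomial σ ℂ) : φ F ∈ S := by
  induction F using MvPolynomial.induction_on with
  | C a => exact (φ.commutes a).symm ▸ S.algebraMap_mem a
  | add p q hp hq => exact map_add φ p q ▸ add_mem hp hq
  | mul_X p e hp => exact map_mul φ p (X e) ▸ mul_mem hp (h e)

end Gen

section Sub

variable {E O E' O' : Type} [Fintype E] [Fintype O] [DecidableEq E] [DecidableEq O]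
  [Fintype E'] [Fintype O'] [DecidableEq E'] [DecidableEq O']

/-- Substitution of operators for the generators. -/
noncomputable def sb (ρ : E ⊕ O → Module.End ℂ (Sp E' O')) : Sp E O →ₗ[ℂ] Sp E' O' :=
  LinearMap.applyₗ one ∘ₗ lift ρ

theorem sb_one (ρ : E ⊕ O → Module.End ℂ (Sp E' O')) : sb ρ one = one := by
  change lift ρ one one = one
  rw [lift_one]
  rfl

theorem sb_gn {ρ : E ⊕ O → Module.End ℂ (Sp E' O')}
    (hρ : ∀ g, ρ g ∈ words fun μ => od μ = g.isRight) (g : E ⊕ O) : Rl (sb ρ) (gn g) (ρ g) :=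
  fun x => by
    change lift ρ (gn g x) one = ρ g (lift ρ x one)
    rw [lift_gn fun g h => words_comm (hρ g) (hρ h)]
    rfl

theorem all_ind {C : Submodule ℂ (Sp E O)} (h1 : one ∈ C) (h : ∀ g, ∀ x ∈ C, gn g x ∈ C)
    (x : Sp E O) : x ∈ C :=
  mono_ind (A := fun _ => True) h1 (fun g _ x _ => h g x) (mem_mono.2 fun _ _ _ _ _ => trivial)

variable (a : E → E') (b : O → O')

/-- The inclusion along maps of generators. -/
noncomputable def up : Sp E O →ₗ[ℂ] Sp E' O' := sb fun g => gn (Sum.map a b g)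

/-- The retraction. -/
noncomputable def dn : Sp E' O' →ₗ[ℂ] Sp E O := sb (Function.extend (Sum.map a b) gn 0)

/-- The generators in the image. -/
def img (g : E' ⊕ O') : Prop := g ∈ Set.range (Sum.map a b)

variable {a b}

theorem up_one : up a b one = one := sb_one _

theorem up_gn (g : E ⊕ O) : Rl (up a b) (gn g) (gn (Sum.map a b g)) :=
  sb_gn (fun g => gn_mem_words (by rw [od_single, Sum.isRight_map])) g

theorem up_mul (F : MvPolynomial E ℂ) : Rl (up a b) (mul F) (mul (rename a F)) :=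
  alg_mem (mulA.prod (mulA.comp (rename a))) (RlA _) (fun e => by
    have := up_gn (a := a) (b := b) (.inl e)
    change Rl _ (mul (X e)) (mul (rename a (X e)))
    rw [rename_X]
    exact this) F

theorem up_pol (F : MvPolynomial E ℂ) : up a b (pol F) = pol (rename a F) := by
  rw [← mul_one_eq, (up_mul F).app, up_one, mul_one_eq]

theorem up_surj {y : Sp E' O'} (hy : y ∈ mono (sup (img a b))) : ∃ x, up a b x = y :=
  mono_ind (C := LinearMap.range (up a b)) ⟨one, up_one⟩ (by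
    rintro _ ⟨g, rfl⟩ _ _ ⟨x, rfl⟩
    exact ⟨gn g x, (up_gn g).app x⟩) hy

variable (ha : Function.Injective a) (hb : Function.Injective b)
include ha hb

theorem dn_par (g : E' ⊕ O') : Function.extend (Sum.map a b) gn 0 g ∈
    words (E := E) (O := O) fun μ => od μ = g.isRight := by
  by_cases h : ∃ g', Sum.map a b g' = g
  · obtain ⟨g, rfl⟩ := h
    rw [(ha.sumMap hb).extend_apply]
    exact gn_mem_words (by rw [od_single, Sum.isRight_map])
  · rw [Function.extend_apply' _ _ _ h]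
    exact zero_mem _

theorem dn_gn (g : E ⊕ O) : Rl (dn a b) (gn (Sum.map a b g)) (gn g) := by
  have := sb_gn (dn_par ha hb) (Sum.map a b g)
  rwa [(ha.sumMap hb).extend_apply] at this

theorem dn_gn0 {g : E' ⊕ O'} (h : ¬ img a b g) (y : Sp E' O') : dn a b (gn g y) = 0 := by
  have := (sb_gn (dn_par ha hb) g).app y
  rwa [Function.extend_apply' _ _ _ h] at this

theorem dn_mul (F : MvPolynomial E ℂ) : Rl (dn a b) (mul (rename a F)) (mul F) :=
  alg_mem ((mulA.comp (rename a)).prod mulA) (RlA _) (fun e => by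
    have := dn_gn ha hb (.inl e)
    change Rl _ (mul (rename a (X e))) (mul (X e))
    rw [rename_X]
    exact this) F

theorem dn_up (x : Sp E O) : dn a b (up a b x) = x :=
  all_ind (C := LinearMap.eqLocus (dn a b ∘ₗ up a b) LinearMap.id)
    ((congrArg (dn a b) up_one).trans (sb_one _)) (fun g x hx => by
      have hx' : dn a b (up a b x) = x := hx
      change dn a b (up a b (gn g x)) = gn g x
      rw [(up_gn g).app, (dn_gn ha hb g).app, hx']) x

theorem up_dr (g : E ⊕ O) : Rl (up a b) (dr g) (dr (Sum.map a b g)) := fun x =>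
  all_ind (C := LinearMap.eqLocus (up a b ∘ₗ dr g) (dr (Sum.map a b g) ∘ₗ up a b))
    (by
      change up a b (dr g one) = dr (Sum.map a b g) (up a b one)
      rw [up_one, dr_one, dr_one, map_zero]) (fun h x hx => by
      have hx' : up a b (dr g x) = dr (Sum.map a b g) (up a b x) := hx
      change up a b ((dr g * gn h) x) = dr (Sum.map a b g) (up a b (gn h x))
      rw [(up_gn h).app, ← Module.End.mul_apply, dr_mul_gn, dr_mul_gn, Sum.isRight_map,
        Sum.isRight_map]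
      simp only [(ha.sumMap hb).eq_iff, LinearMap.add_apply, LinearMap.smul_apply,
        Module.End.mul_apply, map_add, map_smul]
      rw [(up_gn h).app, hx', (Rl.ite (g = h) Rl.one Rl.zero).app]) x

theorem up_mem {P : (E ⊕ O → ℕ) → Prop} {x : Sp E O} (hx : x ∈ mono P) :
    up a b x ∈ mono fun μ => sup (img a b) μ ∧ P (μ ∘ Sum.map a b) := by
  refine map_mem_of_bas (fun S m h => ?_) hx
  obtain ⟨l, h1, h2⟩ := bas_eq_word S m
  rw [h2]
  rw [← h1] at h
  refine mono_le (P := fun μ => sup (img a b) μ ∧ μ ∘ Sum.map a b = fun g => l.count g)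
    (fun μ hμ => ⟨hμ.1, hμ.2 ▸ h⟩) ?_
  clear h h1 h2
  induction l with
  | nil =>
    rw [List.map_nil, List.prod_nil, Module.End.one_apply, up_one]
    exact one_mem ⟨fun _ h => absurd rfl h, rfl⟩
  | cons g l ih =>
    rw [List.map_cons, List.prod_cons, Module.End.mul_apply, (up_gn g).app]
    refine gn_mem _ ih fun μ hμ => ⟨sup_add.2 ⟨hμ.1, sup_single.2 ⟨g, rfl⟩⟩, ?_⟩
    rw [count_cons', ← hμ.2]
    funext g'
    simp only [Function.comp_apply, Pi.add_apply, Pi.single_apply, (ha.sumMap hb).eq_iff]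

theorem up_mem_iff {P : (E ⊕ O → ℕ) → Prop} {P' : (E' ⊕ O' → ℕ) → Prop}
    (h : ∀ μ, sup (img a b) μ → (P' μ ↔ P (μ ∘ Sum.map a b))) (x : Sp E O) :
    x ∈ mono P ↔ up a b x ∈ mono P' := by
  have k : ∀ x ∈ mono P, up a b x ∈ mono P' := fun x hx =>
    mono_le (fun μ hμ => (h μ hμ.1).2 hμ.2) (up_mem ha hb hx)
  refine ⟨k x, fun hx => ?_⟩
  have h1 : up a b (x - proj P x) = 0 :=
    eq_zero_of_mem_mono (by rw [map_sub]; exact sub_mem hx (k _ (proj_mem x)))
      (up_mem ha hb (sub_proj_mem (P := P) x)) fun μ h1 h2 => h2.2 ((h μ h2.1).1 h1)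
  have h2 := dn_up ha hb (x - proj P x)
  rw [h1, map_zero, eq_comm, sub_eq_zero] at h2
  rw [h2]
  exact proj_mem x

theorem up_dr0 {g : E' ⊕ O'} (h : ¬ img a b g) : Rl (up a b) 0 (dr g) := fun x =>
  (map_zero _).trans (dr_eq_zero g (mono_le (fun _ hμ => of_not_not fun h1 => h (hμ.1 g h1))
    (up_mem ha hb (apiC_top x)))).symm

theorem up_vf {δ : E ⊕ O → Module.End ℂ (Sp E O)} {δ' : E' ⊕ O' → Module.End ℂ (Sp E' O')}
    (h : ∀ g, Rl (up a b) (δ g) (δ' (Sum.map a b g))) : Rl (up a b) (vf δ) (vf δ') :=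
  Rl.sum (ha.sumMap hb) (fun g => (h g).mul (up_dr ha hb g)) fun _ hg => (up_dr0 ha hb hg).zmul _

theorem ws_up {Γ : Type} [AddCommMonoid Γ] {c : E ⊕ O → Γ} {c' : E' ⊕ O' → Γ}
    (hc : ∀ g, c' (Sum.map a b g) = c g) {μ : E' ⊕ O' → ℕ} (h : sup (img a b) μ) :
    ws c (μ ∘ Sum.map a b) = ws c' μ :=
  Fintype.sum_of_injective _ (ha.sumMap hb) _ _
    (fun g hg => by rw [of_not_not fun h1 => hg (h g h1), zero_smul]) fun g => by rw [hc]; rfl

omit ha in
theorem od_up {μ : E' ⊕ O' → ℕ} (h : sup (img a b) μ) : od (μ ∘ Sum.map a b) = od μ := by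
  have : ∑ o, (μ ∘ Sum.map a b) (.inr o) = ∑ o, μ (.inr o) :=
    Fintype.sum_of_injective b hb _ _ (fun o ho => of_not_not fun h1 => by
      obtain ⟨g | g, e⟩ := h _ h1
      · exact Sum.inl_ne_inr e
      · exact ho ⟨g, Sum.inr.inj e⟩) fun _ => rfl
  rw [od, od, this]

end Sub

end Pool.Agent.MP_8be872_ag.H82
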