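import Pool.Agent.MP_8be872_ag.H63.SpecB
import Pool.Agent.MP_8be872_ag.H82.RenA

/-! Enlarging the index set of the charts. -/

namespace Pool.Agent.MP_8be872_ag.H82

open Finset H38 H56 H63 MvPolynomial

section Loc

variable {E O J J' : Type} [Fintype E] [Fintype O] [Fintype J] [DecidableEq E] [DecidableEq O]
  [DecidableEq J] [Fintype J'] [DecidableEq J']

theorem rel_mem (f : J → MvPolynomial (E ⊕ J) ℂ) (j : J) (z : Sp (E ⊕ J) (O ⊕ J)) :
    mul (f j * X (.inr j) - 1) (gn (ev j) z) ∈ rel f := fun S _ => by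
  change (f j * X (.inr j) - 1) * wedge (.inr j) z S ∈ Ideal.span _
  rw [H29.wedge_apply]
  split_ifs with h
  · exact Ideal.mul_mem_right _ _ (Ideal.subset_span ⟨j, h, rfl⟩)
  · rw [mul_zero]
    exact zero_mem _

theorem rel_le {f : J → MvPolynomial (E ⊕ J) ℂ} {C : Submodule ℂ (Sp (E ⊕ J) (O ⊕ J))}
    (h : ∀ j z, mul (f j * X (.inr j) - 1) (gn (ev j) z) ∈ C) : rel f ≤ C := by
  intro x hx
  rw [← univ_sum_single x]
  refine C.sum_mem fun S _ => ?_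
  have k : ∀ p ∈ Ideal.span {y | ∃ j, .inr j ∈ S ∧ y = f j * X (.inr j) - 1}, ∀ c,
      (Pi.single S (c * p) : Sp (E ⊕ J) (O ⊕ J)) ∈ C := by
    intro p hp
    induction hp using Submodule.span_induction with
    | mem p hp =>
      obtain ⟨j, hj, rfl⟩ := hp
      intro c
      refine TL.of_eq (h j (sgn (.inr j) S • Pi.single (S.erase (.inr j)) c)) (funext fun T => ?_)
      change _ = (f j * X (.inr j) - 1) * wedge (.inr j) _ T
      rw [H29.wedge_apply, Pi.smul_apply]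
      by_cases e : T = S
      · rw [e, if_pos hj, Pi.single_eq_same, Pi.single_eq_same, smul_smul, H29.sgn_mul_self,
          one_smul, mul_comm]
      · rw [Pi.single_eq_of_ne e]
        split_ifs with h1
        · rw [Pi.single_eq_of_ne fun e' => e (by rw [← insert_erase h1, e', insert_erase hj]),
            smul_zero, smul_zero, mul_zero]
        · rw [mul_zero]
    | zero =>
      intro c
      rw [mul_zero, Pi.single_zero]
      exact zero_mem _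
    | add p q _ _ hp hq =>
      intro c
      rw [mul_add, Pi.single_add]
      exact add_mem (hp c) (hq c)
    | smul r p _ hp =>
      intro c
      rw [smul_eq_mul, ← mul_assoc]
      exact hp _
  have := k _ (hx S trivial) 1
  rwa [one_mul] at this

variable (ι : J ↪ J')

theorem inj (A : Type) : Function.Injective (Sum.map (id : A → A) ι) :=
  Function.injective_id.sumMap ι.injective

/-- The map of generators. -/
abbrev mp : Gn E O J → Gn E O J' := Sum.map (Sum.map id ι) (Sum.map id ι)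

/-- The inclusion. -/
noncomputable abbrev Up : Sp (E ⊕ J) (O ⊕ J) →ₗ[ℂ] Sp (E ⊕ J') (O ⊕ J') :=
  up (Sum.map id ι) (Sum.map id ι)

/-- The generators in the image. -/
abbrev Im : Gn E O J' → Prop := img (Sum.map id ι) (Sum.map id ι)

variable {ι}

theorem im_tv {j : J'} : Im (E := E) (O := O) ι (tv j) ↔ j ∈ Set.range ι :=
  ⟨by
    rintro ⟨(e | i) | o, h⟩
    exacts [by simp at h, ⟨i, by simpa using h⟩, by simp at h],
   by rintro ⟨i, rfl⟩; exact ⟨tv i, rfl⟩⟩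

theorem im_ev {j : J'} : Im (E := E) (O := O) ι (ev j) ↔ j ∈ Set.range ι :=
  ⟨by
    rintro ⟨e | o | i, h⟩
    exacts [by simp at h, by simp at h, ⟨i, by simpa using h⟩],
   by rintro ⟨i, rfl⟩; exact ⟨ev i, rfl⟩⟩

variable {f : J → MvPolynomial (E ⊕ J) ℂ} {f' : J' → MvPolynomial (E ⊕ J') ℂ}

theorem ren_rel (hf : ∀ j, f' (ι j) = rename (Sum.map id ι) (f j)) (j : J) :
    rename (Sum.map id ι) (f j * X (.inr j) - 1) = f' (ι j) * X (.inr (ι j)) - 1 := by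
  rw [map_sub, map_mul, map_one, rename_X, hf]
  rfl

theorem rel_iff (hf : ∀ j, f' (ι j) = rename (Sum.map id ι) (f j)) (x : Sp (E ⊕ J) (O ⊕ J)) :
    x ∈ rel f ↔ Up ι x ∈ rel f' := by
  refine ⟨fun hx => rel_le (C := (rel f').comap (Up ι)) (fun j z => ?_) hx, fun hx => ?_⟩
  · rw [Submodule.mem_comap, (up_mul _).app, (up_gn _).app, ren_rel hf]
    exact rel_mem f' (ι j) _
  · rw [← dn_up (inj ι E) (inj ι O) x]
    refine rel_le (C := (rel f).comap (dn _ _)) (fun j z => ?_) hx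
    rw [Submodule.mem_comap]
    by_cases h : j ∈ Set.range ι
    · obtain ⟨j, rfl⟩ := h
      rw [← ren_rel hf, (dn_mul (inj ι E) (inj ι O) _).app]
      have := (dn_gn (inj ι E) (inj ι O) (ev j)).app z
      exact TL.of_eq (rel_mem f j _) (congrArg _ this)
    · rw [← Module.End.mul_apply, mul_comm_words _ (gn_mem_words (P := fun _ => True) trivial),
        Module.End.mul_apply, dn_gn0 (inj ι E) (inj ι O) (mt im_ev.1 h)]
      exact zero_mem _

theorem Dloc_rl (hf : ∀ j, f' (ι j) = rename (Sum.map id ι) (f j)) {δ : Gn E O J → Op E O J}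
    {δ' : Gn E O J' → Op E O J'} (h : ∀ g, Rl (Up ι) (δ g) (δ' (mp ι g))) :
    Rl (Up ι) (Dloc δ 0 f univ) (Dloc δ' 0 f' (univ.map ι)) := by
  have hv := up_vf (inj ι E) (inj ι O) h
  have hm : ∀ j, Rl (Up (O := O) ι) (mul (f j)) (mul (f' (ι j))) := fun j => hf j ▸ up_mul _
  unfold Dloc
  rw [sum_map]
  exact ((hv.sub (Rl.sum ι.injective (fun j => (((up_gn (tv j)).mul (up_gn (tv j))).mul
    ((hv.mul (hm j)).sub ((hm j).mul hv))).mul (up_dr (inj ι E) (inj ι O) (tv j)))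
    fun j hj => (up_dr0 (inj ι E) (inj ι O) (mt im_tv.1 hj)).zmul _)).add Rl.zero).add
    (Rl.sum' fun j => up_gn (ev j))

variable {Al : Gn E O J → Prop} {Al' : Gn E O J' → Prop}

theorem cech_im (h0 : ∀ g, Al' g → Im ι g) {μ : Gn E O J' → ℕ}
    (h : cech Al' ∅ (univ.map ι) μ) : sup (Im ι) μ := by
  have k : ∀ j, μ (ev j) ≠ 0 → j ∈ Set.range ι := fun j hj => by
    rcases h.1 _ hj with h1 | ⟨i, h1, -⟩ | ⟨i, h1, h2⟩
    · exact im_ev.1 (h0 _ h1)
    · exact absurd h1 Sum.inr_ne_inl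
    · obtain rfl : j = i := Sum.inr.inj (Sum.inr.inj h2)
      simpa using h1
  intro g hg
  rcases h.1 _ hg with h1 | ⟨i, rfl, h1⟩ | ⟨i, -, rfl⟩
  exacts [h0 _ h1, im_tv.2 (k i h1), im_ev.2 (k i hg)]

theorem cech_iff (hA : ∀ g, Al' (mp ι g) ↔ Al g) {μ : Gn E O J' → ℕ} (h : sup (Im ι) μ) :
    cech Al' ∅ (univ.map ι) μ ↔ cech Al ∅ univ (μ ∘ mp ι) := by
  have hi : Function.Injective (mp (E := E) (O := O) ι) := (inj ι E).sumMap (inj ι O)
  refine and_congr ⟨fun a g hg => ?_, fun a g hg => ?_⟩ (and_congr (by simp)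
    ⟨fun ⟨j, hj⟩ => ?_, fun ⟨j, hj⟩ => ⟨ι j, hj⟩⟩)
  · rcases a _ hg with h1 | ⟨i, h1, h2⟩ | ⟨i, h1, h2⟩
    · exact .inl ((hA g).1 h1)
    · obtain ⟨i, rfl⟩ := im_ev.1 (h _ h2)
      exact .inr (.inl ⟨i, hi h1, h2⟩)
    · obtain ⟨i, rfl⟩ : i ∈ Set.range ι := by simpa using h1
      exact .inr (.inr ⟨i, by simp, hi h2⟩)
  · obtain ⟨g, rfl⟩ := h g hg
    rcases a g hg with h1 | ⟨i, rfl, h2⟩ | ⟨i, -, rfl⟩
    · exact .inl ((hA g).2 h1)
    · exact .inr (.inl ⟨ι i, rfl, h2⟩)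
    · exact .inr (.inr ⟨ι i, by simp, rfl⟩)
  · obtain ⟨i, rfl⟩ := im_ev.1 (h _ hj)
    exact ⟨i, hj⟩

theorem ZZ_iff {Γ : Type} [AddCommGroup Γ] {c : Gn E O J → Γ} {c' : Gn E O J' → Γ}
    (hA : ∀ g, Al' (mp ι g) ↔ Al g) (hc : ∀ g, c' (mp ι g) = c g) (γ : Γ) (p : Bool)
    (x : Sp (E ⊕ J) (O ⊕ J)) :
    x ∈ ZZ Al c ∅ univ γ p ↔ Up ι x ∈ ZZ Al' c' ∅ (univ.map ι) γ p :=
  up_mem_iff (inj ι E) (inj ι O) (fun μ h => by
    rw [cech_iff hA h, ws_up (inj ι E) (inj ι O) hc h, od_up (inj ι O) h]) x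

end Loc

section Glob

variable {Q : Quiv} {w v D : Fin Q.n → ℕ} {J J' : Type} [Fintype J] [DecidableEq J] [Fintype J']
  [DecidableEq J'] (ι : J ↪ J') (R : Nb Q w v D → Nb Q w v D → Prop)

theorem mp_gg (k : Kd Q) (p q : Nb Q w v D) : mp ι (gg k p q) = gg k p q := by
  cases k <;> rfl

theorem ofM_rel {A A' : Type} (r : A → A' → Prop) {M : Kd Q → Nb Q w v D → Nb Q w v D → A}
    {M' : Kd Q → Nb Q w v D → Nb Q w v D → A'} {t e : J → A} {t' e' : J' → A'}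
    (h : ∀ k p q, r (M k p q) (M' k p q)) (ht : ∀ j, r (t j) (t' (ι j)))
    (he : ∀ j, r (e j) (e' (ι j))) (g : Ix Q w v D J ⊕ Ix Q w v D J) :
    r (ofM M t e g) (ofM M' t' e' (mp ι g)) := by
  rcases g with (⟨τ, p, q⟩ | j) | (⟨τ, p, q⟩ | j)
  exacts [h (.inl τ) p q, ht j, h (.inr τ) p q, he j]

theorem msk_rl {M : Kd Q → Nb Q w v D → Nb Q w v D → OpQ Q w v D J}
    {M' : Kd Q → Nb Q w v D → Nb Q w v D → OpQ Q w v D J'}
    (h : ∀ k p q, Rl (Up ι) (M k p q) (M' k p q)) (k : Kd Q) (p q : Nb Q w v D) :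
    Rl (Up ι) (msk R M k p q) (msk R M' k p q) := by
  classical
  unfold msk
  exact Rl.ite _ (h k p q) Rl.zero

theorem Yg_rl (k : Kd Q) (p q : Nb Q w v D) : Rl (Up ι) (Yg R k p q) (Yg R k p q) :=
  msk_rl ι R (fun k p q => by
    have := up_gn (a := Sum.map id ι) (b := Sum.map id ι) (gg (J := J) k p q)
    rwa [show Sum.map _ _ _ = _ from mp_gg ι k p q] at this) k p q

theorem lie_rl (a b : Nb Q w v D) : Rl (Up ι) (lie R a b) (lie R a b) := by
  have s : ∀ p q, Rl (Up ι) ((Matrix.single a b 1 : Matrix _ _ (OpQ Q w v D J)) p q)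
      ((Matrix.single a b 1 : Matrix _ _ (OpQ Q w v D J')) p q) := fun p q =>
    Rl.ite _ Rl.one Rl.zero
  exact up_vf (inj ι _) (inj ι _) (ofM_rel ι (Rl (Up ι)) (msk_rl ι R fun k p q =>
    (Rl.sum' fun r => (Yg_rl ι R k p r).mul (s r q)).sub
      (Rl.sum' fun r => (s p r).mul (Yg_rl ι R k r q))) (fun _ => Rl.zero) fun _ => Rl.zero)

theorem Phi_rl (hd : DSqStmt) {M M' N : Type} [AddCommGroup M] [Module ℂ M] [AddCommGroup M']
    [Module ℂ M'] [Fintype N] {ψ : M →ₗ[ℂ] M'} {Y : Kd Q → Matrix N N (Module.End ℂ M)}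
    {Y' : Kd Q → Matrix N N (Module.End ℂ M')} (h : ∀ k p q, Rl ψ (Y k p q) (Y' k p q))
    (k : Kd Q) (p q : N) : Rl ψ (Phi Q Y k p q) (Phi Q Y' k p q) := by
  let Z : Kd Q → Matrix N N (RlA ψ) := fun k p q => ⟨(Y k p q, Y' k p q), h k p q⟩
  have h1 := hd.1 Q _ _ _ ((RingHom.fst _ _).comp (RlA ψ).val.toRingHom) Z k
  have h2 := hd.1 Q _ _ _ ((RingHom.snd _ _).comp (RlA ψ).val.toRingHom) Z k
  have h3 : Rl ψ (Phi Q Z k p q).1.1 (Phi Q Z k p q).1.2 := (Phi Q Z k p q).2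
  have e1 : (Phi Q Z k p q).1.1 = Phi Q Y k p q := congrFun (congrFun h1 p) q
  have e2 : (Phi Q Z k p q).1.2 = Phi Q Y' k p q := congrFun (congrFun h2 p) q
  rwa [e1, e2] at h3

theorem dG_rl (hd : DSqStmt) (g : Ix Q w v D J ⊕ Ix Q w v D J) :
    Rl (Up ι) (dG R g) (dG R (mp ι g)) :=
  ofM_rel ι (Rl (Up ι)) (msk_rl ι R (Phi_rl hd (Yg_rl ι R))) (fun _ => Rl.zero)
    (fun _ => Rl.zero) g

theorem AlG_mp (g : Ix Q w v D J ⊕ Ix Q w v D J) : AlG R (mp ι g) ↔ AlG R g :=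
  ofM_rel ι (fun a b => b ↔ a) (fun _ _ _ => Iff.rfl) (fun _ => Iff.rfl) (fun _ => Iff.rfl) g

theorem kind_mp (U : Kd Q → Prop) (g : Ix Q w v D J ⊕ Ix Q w v D J) :
    kind U (mp ι g) ↔ kind U g :=
  ofM_rel ι (fun a b => b ↔ a) (fun _ _ _ => Iff.rfl) (fun _ => Iff.rfl) (fun _ => Iff.rfl) g

theorem AlG_im (g : Ix Q w v D J' ⊕ Ix Q w v D J') (h : AlG R g) : Im ι g := by
  rcases g with (τ | j) | (τ | j)
  exacts [⟨.inl (.inl τ), rfl⟩, h.elim, ⟨.inr (.inl τ), rfl⟩, h.elim]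

theorem wt_mp {φ : J → G} {φ' : J' → G} (h : ∀ j, φ' (ι j) = φ j)
    (g : Ix Q w v D J ⊕ Ix Q w v D J) : wt bw φ' (mp ι g) = wt bw φ g :=
  ofM_rel ι (fun a b => b = a) (fun _ _ _ => rfl) (fun j => congrArg (fun x : G => -x) (h j))
    (fun _ => rfl) g

theorem pt_mp (y : Ix Q w v D J' → ℂ) : pt (y ∘ Sum.map id ι) = pt y := by
  funext k p q
  cases k <;> rfl

end Glob

theorem ren (hd : DSqStmt) : RenStmt := by
  intro Q w v D J _ _ J' _ _ ι f φ f' φ' hs hf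
  refine ⟨fun j => ⟨?_, (hs j).2.1, fun a b hab => ?_⟩, fun _ γ n h => ?_, fun y => ?_⟩
  · unfold Homog
    rw [← up_pol (b := Sum.map id ι)]
    refine (up_mem_iff (inj ι _) (inj ι _) (fun μ hμ => and_congr ⟨fun a g hg => ?_,
      fun a g hg => ?_⟩ ?_) _).1 (hs j).1
    · exact ⟨(AlG_mp ι _ g).1 (a _ hg).1, (kind_mp ι _ g).1 (a _ hg).2⟩
    · obtain ⟨g, rfl⟩ := hμ g hg
      exact ⟨(AlG_mp ι _ g).2 (a _ hg).1, (kind_mp ι _ g).2 (a _ hg).2⟩
    · rw [ws_up (inj ι _) (inj ι _) (wt_mp ι (φ := 0) (φ' := 0) fun _ => rfl) hμ]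
  · rw [← up_pol (b := Sum.map id ι), ← (lie_rl ι radF a b).app, (hs j).2.2 a b hab, map_zero]
  · have k := hDim_iso (Z := fun p => ZZ (AlG radF) (wt bw φ) ∅ univ γ p ⊓ InvT f)
      (Z' := fun p => ZZ (AlG radF) (wt bw φ') ∅ (univ.map ι) γ p ⊓ InvT f')
      (Dloc_rl (fun j => (hf j).1) (dG_rl ι radF hd)) (fun p x => and_congr
        (ZZ_iff (AlG_mp ι radF) (wt_mp ι fun j => (hf j).2) γ p x) (by
          simp only [InvT, SetLike.mem_coe, Submodule.mem_iInf, Submodule.mem_comap,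
            rel_iff (fun j => (hf j).1), (lie_rl ι radF _ _).app]))
      (fun p y hy => up_surj (mono_le (fun μ hμ => cech_im (AlG_im ι radF) hμ.1) hy.1))
      (rel_iff fun j => (hf j).1)
    unfold ChiC HasChi at h ⊢
    simp only [k] at h
    exact h
  · unfold OnQ Stab
    rw [pt_mp]
    exact ⟨Iff.rfl, Iff.rfl⟩

end Pool.Agent.MP_8be872_ag.H82

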